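import Mathlib

set_option autoImplicit false

/-!
# Permanents of staircase sign matrices modulo powers of three

A sign matrix whose columns have their entries `-1` in initial segments of growing lengths
`h 0 ≤ h 1 ≤ ...` has permanent congruent to
`(-2)^N * ∑_{i < 3^m} (-1)^i ∏_j (i + h j - j)` modulo `3^m`.
-/

namespace Pool.Agent.V11261.PM

open Finset

/-- expansion of a permanent along the first column. -/
theorem perm_succ_col {R : Type*} [CommRing R] {n : ℕ}
    (A : Matrix (Fin (n + 1)) (Fin (n + 1)) R) :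
    A.permanent = ∑ i : Fin (n + 1), A i 0 * (A.submatrix i.succAbove Fin.succ).permanent := by
  unfold Matrix.permanent
  rw [Finset.univ_perm_fin_succ, ← Finset.univ_product_univ]
  simp only [Finset.sum_map, Equiv.toEmbedding_apply, Finset.sum_product, Matrix.submatrix,
    Matrix.of_apply]
  refine Finset.sum_congr rfl fun i _ => Fin.cases ?_ (fun i => ?_) i
  · simp only [Fin.prod_univ_succ, Finset.mul_sum,
      Equiv.Perm.decomposeFin_symm_apply_zero, Equiv.swap_self, Equiv.refl_apply,
      Equiv.Perm.decomposeFin_symm_apply_succ, Fin.succAbove_zero]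
  · rw [Finset.mul_sum]
    have hbij := (Group.mulLeft_bijective (i.cycleRange)).sum_comp
      (fun τ : Equiv.Perm (Fin n) => A i.succ 0 * ∏ j, A (i.succ.succAbove (τ j)) j.succ)
    rw [← hbij]
    refine Finset.sum_congr rfl fun σ _ => ?_
    simp only [Fin.prod_univ_succ, Equiv.Perm.coe_mul, Function.comp_apply,
      Fin.succAbove_cycleRange, Equiv.Perm.decomposeFin_symm_apply_zero,
      Equiv.Perm.decomposeFin_symm_apply_succ]

/-- the staircase matrix: column `j < k` has entries `-1` in the rows `i < h j`. -/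
def stair (N k : ℕ) (h : ℕ → ℕ) : Matrix (Fin N) (Fin N) ℤ :=
  fun i j => if (j : ℕ) < k ∧ (i : ℕ) < h j then -1 else 1

/-- falling factorials -/
def gg {R : Type*} [CommRing R] (N : ℕ) (x : R) : R := ∏ t ∈ range N, (x - (t : R))

lemma gg_succ {R : Type*} [CommRing R] (N : ℕ) (x : R) : gg (N + 1) x = gg N x * (x - (N : R)) := by
  unfold gg; rw [prod_range_succ]

lemma gg_shift {R : Type*} [CommRing R] (N : ℕ) (x : R) :
    gg (N + 1) (x + 1) = (x + 1) * gg N x := by
  unfold gg
  rw [prod_range_succ', mul_comm]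
  congr 1
  · simp
  · refine prod_congr rfl fun t _ => ?_
    push_cast; ring

/-- the alternating sum -/
def alt (m : ℕ) (f : ZMod (3 ^ m) → ZMod (3 ^ m)) : ZMod (3 ^ m) :=
  ∑ i ∈ range (3 ^ m), (-1) ^ i * f (i : ZMod (3 ^ m))

lemma alt_add (m : ℕ) (f g : ZMod (3 ^ m) → ZMod (3 ^ m)) :
    alt m (fun x => f x + g x) = alt m f + alt m g := by
  unfold alt; rw [← sum_add_distrib]; exact sum_congr rfl fun i _ => by ring

lemma alt_mul (m : ℕ) (c : ZMod (3 ^ m)) (f : ZMod (3 ^ m) → ZMod (3 ^ m)) :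
    alt m (fun x => c * f x) = c * alt m f := by
  unfold alt; rw [mul_sum]; exact sum_congr rfl fun i _ => by ring

lemma alt_tel {R : Type*} [CommRing R] (g : ℕ → R) (M : ℕ) :
    ∑ i ∈ range M, (-1) ^ i * (g (i + 1) + g i) = g 0 - (-1) ^ M * g M := by
  induction M with
  | zero => simp
  | succ M ih => rw [sum_range_succ, ih, pow_succ]; ring

lemma odd_three_pow (m : ℕ) : Odd (3 ^ m) := Odd.pow (by decide)

lemma alt_shift (m : ℕ) (g : ZMod (3 ^ m) → ZMod (3 ^ m)) :
    alt m (fun x => g (x + 1) + g x) = 2 * g 0 := by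
  unfold alt
  have := alt_tel (fun i : ℕ => g ((i : ℕ) : ZMod (3 ^ m))) (3 ^ m)
  simp only [Nat.cast_add, Nat.cast_one] at this
  rw [this, (odd_three_pow m).neg_one_pow, ZMod.natCast_self]
  simp; ring

lemma alt_one (m : ℕ) : alt m (fun _ => 1) = 1 := by
  unfold alt
  have : ∀ M : ℕ, ∑ i ∈ range (2 * M + 1), ((-1 : ZMod (3 ^ m)) ^ i * 1) = 1 := by
    intro M
    induction M with
    | zero => simp
    | succ M ih =>
      rw [show 2 * (M + 1) + 1 = (2 * M + 1) + 1 + 1 from by ring, sum_range_succ, sum_range_succ, ih]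
      simp [pow_succ, pow_mul]
  obtain ⟨r, hr⟩ := odd_three_pow m
  have h2 := this r
  rw [← hr] at h2
  exact h2

lemma alt_gg (m N : ℕ) : (-2) ^ N * alt m (gg N) = ((N.factorial : ℕ) : ZMod (3 ^ m)) := by
  induction N with
  | zero =>
    have h1 : (gg 0 : ZMod (3 ^ m) → ZMod (3 ^ m)) = fun _ => 1 := by
      funext x; simp [gg]
    rw [h1, alt_one]; simp
  | succ N ih =>
    have h1 : alt m (fun x => gg (N + 1) (x + 1) + gg (N + 1) x) = 0 := by
      rw [alt_shift]
      simp [gg, prod_range_succ']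
    have h2 : (fun x : ZMod (3 ^ m) => gg (N + 1) (x + 1) + gg (N + 1) x)
        = fun x => 2 * gg (N + 1) x + ((N : ZMod (3 ^ m)) + 1) * gg N x := by
      funext x; rw [gg_shift, gg_succ]; ring
    rw [h2, alt_add m (fun x => 2 * gg (N + 1) x) (fun x => ((N : ZMod (3 ^ m)) + 1) * gg N x),
      alt_mul, alt_mul] at h1
    rw [Nat.factorial_succ, Nat.cast_mul, ← ih, pow_succ]
    push_cast
    linear_combination (-2 : ZMod (3 ^ m)) ^ N * (-1) * h1

/-- the polynomial of the staircase -/
def pol {R : Type*} [CommRing R] (N k : ℕ) (h : ℕ → ℕ) (x : R) : R :=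
  gg (N - k) x * ∏ j ∈ range k, (x + (h j : R) - ((N - k : ℕ) : R) - (j : R))

lemma stair_minor (N k : ℕ) (h : ℕ → ℕ) (hm : ∀ j, j < k + 1 → h 0 ≤ h j) (i : Fin (N + 1))
    (hi : (i : ℕ) < h 0) :
    (stair (N + 1) (k + 1) h).submatrix i.succAbove Fin.succ
      = stair N k (fun j => h (j + 1) - 1) := by
  ext a b
  simp only [Matrix.submatrix_apply, stair, Fin.val_succ]
  by_cases hb : (b : ℕ) < k
  · have h1 := hm (b + 1) (by omega)
    have h2 : ((i.succAbove a : Fin (N + 1)) : ℕ) < h (b + 1) ↔ (a : ℕ) < h (b + 1) - 1 := by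
      rcases lt_or_ge a.castSucc i with hlt | hge
      · rw [Fin.succAbove_of_castSucc_lt _ _ hlt]
        have : (a : ℕ) < i := by simpa [Fin.lt_def] using hlt
        simp only [Fin.val_castSucc]
        omega
      · rw [Fin.succAbove_of_le_castSucc _ _ hge]
        simp only [Fin.val_succ]
        omega
    by_cases h3 : (a : ℕ) < h (b + 1) - 1
    · rw [if_pos ⟨by omega, h2.2 h3⟩, if_pos ⟨hb, h3⟩]
    · rw [if_neg (fun h4 => h3 (h2.1 h4.2)), if_neg (fun h4 => h3 h4.2)]
  · rw [if_neg (fun h4 => hb (by omega)), if_neg (fun h4 => hb h4.1)]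

lemma stair_rec (N k : ℕ) (hk : k ≤ N) (h : ℕ → ℕ) (hm : ∀ j, j < k + 1 → h 0 ≤ h j)
    (h0 : h 0 ≤ N + 1) :
    (stair (N + 1) (k + 1) h).permanent
      = (stair (N + 1) k (fun j => h (j + 1))).permanent
        - 2 * (h 0 : ℤ) * (stair N k (fun j => h (j + 1) - 1)).permanent := by
  set B : Matrix (Fin (N + 1)) (Fin (N + 1)) ℤ :=
    fun i j => if j = 0 then 1 else stair (N + 1) (k + 1) h i j with hB
  have hsub : ∀ i : Fin (N + 1), B.submatrix i.succAbove Fin.succ
      = (stair (N + 1) (k + 1) h).submatrix i.succAbove Fin.succ := by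
    intro i; ext a b
    show B (i.succAbove a) b.succ = stair (N + 1) (k + 1) h (i.succAbove a) b.succ
    simp [hB]
  have hBrot : B.submatrix id (finRotate (N + 1)) = stair (N + 1) k (fun j => h (j + 1)) := by
    ext a b
    simp only [Matrix.submatrix_apply, id]
    rcases Fin.lastCases (motive := fun b => b = Fin.last N ∨ ∃ c : Fin N, b = c.castSucc)
      (Or.inl rfl) (fun c => Or.inr ⟨c, rfl⟩) b with hb | ⟨c, hc⟩
    · subst hb
      rw [finRotate_last]
      simp only [hB, if_true, stair, Fin.val_last]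
      rw [if_neg (by omega)]
    · subst hc
      have : finRotate (N + 1) c.castSucc = c.succ := by
        rw [finRotate_apply]
        exact Fin.coeSucc_eq_succ
      rw [this]
      simp only [hB, Fin.succ_ne_zero, if_false, stair, Fin.val_succ, Fin.val_castSucc]
      by_cases h3 : (c : ℕ) < k ∧ (a : ℕ) < h (c + 1)
      · rw [if_pos ⟨by omega, h3.2⟩, if_pos h3]
      · rw [if_neg (fun h4 => h3 ⟨by omega, h4.2⟩), if_neg h3]
  have hBp : B.permanent = (stair (N + 1) k (fun j => h (j + 1))).permanent := by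
    rw [← hBrot, Matrix.permanent_permute_rows]
  rw [← hBp, perm_succ_col, perm_succ_col B]
  have hterm : ∀ i : Fin (N + 1),
      stair (N + 1) (k + 1) h i 0
        * ((stair (N + 1) (k + 1) h).submatrix i.succAbove Fin.succ).permanent
      = B i 0 * (B.submatrix i.succAbove Fin.succ).permanent
        - (if (i : ℕ) < h 0 then 2 * (stair N k (fun j => h (j + 1) - 1)).permanent else 0) := by
    intro i
    rw [hsub i]
    by_cases hi : (i : ℕ) < h 0
    · rw [stair_minor N k h hm i hi, if_pos hi]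
      simp [hB, stair, hi]; ring
    · simp [hB, stair, hi]
  rw [sum_congr rfl fun i _ => hterm i, sum_sub_distrib]
  congr 1
  rw [← sum_filter, sum_const]
  have hcard : (univ.filter fun i : Fin (N + 1) => (i : ℕ) < h 0).card = h 0 := by
    rw [Fin.card_filter_val_lt]
    omega
  rw [hcard, nsmul_eq_mul]; ring

theorem stair_perm (m : ℕ) : ∀ (k N : ℕ), k ≤ N → ∀ h : ℕ → ℕ,
    (∀ i j, i ≤ j → j < k → h i ≤ h j) → (∀ j, j < k → h j ≤ N) →
    (((stair N k h).permanent : ℤ) : ZMod (3 ^ m)) = (-2) ^ N * alt m (pol N k h) := by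
  intro k
  induction k with
  | zero =>
    intro N _ h _ _
    have h1 : (pol N 0 h : ZMod (3 ^ m) → ZMod (3 ^ m)) = gg N := by
      funext x; simp [pol]
    rw [h1, alt_gg]
    simp [stair, Matrix.permanent, Fintype.card_perm]
  | succ k ih =>
    intro N hN h hm hb
    obtain ⟨N, rfl⟩ : ∃ N', N = N' + 1 := ⟨N - 1, by omega⟩
    have hk : k ≤ N := by omega
    rw [stair_rec N k hk h (fun j hj => hm 0 j (Nat.zero_le _) hj) (hb 0 (by omega))]
    push_cast
    rw [ih (N + 1) (by omega) (fun j => h (j + 1))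
      (fun i j hij hj => hm (i + 1) (j + 1) (by omega) (by omega))
      (fun j hj => hb (j + 1) (by omega)),
      ih N hk (fun j => h (j + 1) - 1)
      (fun i j hij hj => by
        have := hm (i + 1) (j + 1) (by omega) (by omega)
        omega)
      (fun j hj => by
        have := hb (j + 1) (by omega)
        omega)]
    have key : (h 0 : ZMod (3 ^ m)) = 0 ∨ 1 ≤ h 0 := by
      rcases Nat.eq_zero_or_pos (h 0) with h0 | h0
      · left; simp [h0]
      · right; exact h0
    have hpol : (pol (N + 1) (k + 1) h : ZMod (3 ^ m) → ZMod (3 ^ m))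
        = fun x => pol (N + 1) k (fun j => h (j + 1)) x
          + (h 0 : ZMod (3 ^ m)) * pol N k (fun j => h (j + 1) - 1) x := by
      funext x
      have e1 : N + 1 - (k + 1) = N - k := by omega
      have e2 : N + 1 - k = (N - k) + 1 := by omega
      unfold pol
      rw [e1, e2, prod_range_succ', gg_succ]
      have q1 : ∏ j ∈ range k, (x + (h (j + 1) : ZMod (3 ^ m)) - ((N - k : ℕ) : ZMod (3 ^ m))
            - ((j + 1 : ℕ) : ZMod (3 ^ m)))
          = ∏ j ∈ range k, (x + (h (j + 1) : ZMod (3 ^ m)) - ((N - k + 1 : ℕ) : ZMod (3 ^ m))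
            - (j : ZMod (3 ^ m))) := by
        refine prod_congr rfl fun j _ => ?_
        push_cast; ring
      rw [q1]
      rcases key with h0 | h0
      · rw [h0]; push_cast; ring
      · have q2 : ∏ j ∈ range k, (x + ((h (j + 1) - 1 : ℕ) : ZMod (3 ^ m))
              - ((N - k : ℕ) : ZMod (3 ^ m)) - (j : ZMod (3 ^ m)))
            = ∏ j ∈ range k, (x + (h (j + 1) : ZMod (3 ^ m)) - ((N - k + 1 : ℕ) : ZMod (3 ^ m))
              - (j : ZMod (3 ^ m))) := by
          refine prod_congr rfl fun j hj => ?_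
          have : 1 ≤ h (j + 1) := le_trans h0 (hm 0 (j + 1) (Nat.zero_le _) (by
            have := mem_range.1 hj; omega))
          rw [Nat.cast_sub this]
          push_cast; ring
        rw [q2]; push_cast; ring
    rw [hpol, alt_add m (fun x => pol (N + 1) k (fun j => h (j + 1)) x)
      (fun x => (h 0 : ZMod (3 ^ m)) * pol N k (fun j => h (j + 1) - 1) x), alt_mul]
    rw [pow_succ]
    ring

end Pool.Agent.V11261.PM
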