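import Mathlib
import Pool.Agent.V11261.PM.Ferrers

set_option autoImplicit false

/-!
# Exponentially many permanents of sign matrices
-/

namespace Pool.Agent.V11261.PM

open Finset

lemma three_blocks (φ : ℕ → ℤ) (M : ℕ) :
    ∑ i ∈ range (3 * M), (-1) ^ i * φ i
      = ∑ l ∈ range M, (-1) ^ l * (φ (3 * l) - φ (3 * l + 1) + φ (3 * l + 2)) := by
  induction M with
  | zero => simp
  | succ M ih =>
    rw [show 3 * (M + 1) = 3 * M + 1 + 1 + 1 from by ring, sum_range_succ, sum_range_succ,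
      sum_range_succ, ih, sum_range_succ]
    have h : (-1 : ℤ) ^ (3 * M) = (-1) ^ M := by
      rw [pow_mul]; norm_num
    simp only [pow_succ, h]
    ring

lemma alt_odd (M : ℕ) (hM : Odd M) : ∑ u ∈ range M, (-1 : ℤ) ^ u = 1 := by
  obtain ⟨r, rfl⟩ := hM
  induction r with
  | zero => simp
  | succ r ih =>
    rw [show 2 * (r + 1) + 1 = (2 * r + 1) + 1 + 1 from by ring, sum_range_succ, sum_range_succ, ih]
    simp [pow_succ, pow_mul]

/-- the small sum modulo 3 -/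
lemma small_sum (k m : ℕ) (hk : Odd k) :
    ¬ (3 : ℤ) ∣ ∑ l ∈ range (3 ^ (m + 1)), (-1) ^ l * (l : ℤ) ^ k := by
  intro hd
  have hk0 : k ≠ 0 := by rintro rfl; exact absurd hk (by decide)
  rw [pow_succ', three_blocks (fun l => (l : ℤ) ^ k)] at hd
  have hc : (3 : ℤ) ∣ ∑ l ∈ range (3 ^ m), (-1) ^ l * (((3 * l : ℕ) : ℤ) ^ k
      - ((3 * l + 1 : ℕ) : ℤ) ^ k + ((3 * l + 2 : ℕ) : ℤ) ^ k)
      - ∑ l ∈ range (3 ^ m), (-1) ^ l * (2 ^ k - 1) := by
    rw [← sum_sub_distrib]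
    refine dvd_sum fun l _ => ?_
    rw [← mul_sub]
    refine Dvd.dvd.mul_left ?_ _
    have a1 : (3 : ℤ) ∣ ((3 * l : ℕ) : ℤ) ^ k :=
      dvd_pow (by push_cast; exact dvd_mul_right _ _) hk0
    have a2 : (3 : ℤ) ∣ ((3 * l + 1 : ℕ) : ℤ) ^ k - 1 ^ k := by
      refine dvd_trans ?_ (sub_dvd_pow_sub_pow _ _ k)
      push_cast; ring_nf; exact dvd_mul_left _ _
    have a3 : (3 : ℤ) ∣ ((3 * l + 2 : ℕ) : ℤ) ^ k - 2 ^ k := by
      refine dvd_trans ?_ (sub_dvd_pow_sub_pow _ _ k)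
      push_cast; ring_nf; exact dvd_mul_left _ _
    have := dvd_add (dvd_sub a1 a2) a3
    rw [one_pow] at this
    convert this using 1
    ring
  rw [← sum_mul, alt_odd _ (Odd.pow (by decide)), one_mul] at hc
  have h2 : (3 : ℤ) ∣ 2 ^ k - 1 := by
    have := dvd_sub hd hc
    simpa using this
  obtain ⟨r, rfl⟩ := hk
  have h4 : (3 : ℤ) ∣ 4 ^ r - 1 ^ r := dvd_trans (by norm_num) (sub_dvd_pow_sub_pow (4 : ℤ) 1 r)
  rw [pow_succ, pow_mul] at h2
  rw [one_pow] at h4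
  norm_num at h2
  omega

/-- the alternating sum has exact order `k` at 3 -/
lemma big_sum (A B k m : ℕ) (hk : Odd k) (hA : k < A) (hB : k < B) :
    (3 : ℤ) ^ k ∣ (∑ i ∈ range (3 ^ (m + 2)), (-1) ^ i *
        (((i : ℤ) + 2) ^ A * ((i : ℤ) + 1) ^ B * (i : ℤ) ^ k)) ∧
    ¬ (3 : ℤ) ^ (k + 1) ∣ (∑ i ∈ range (3 ^ (m + 2)), (-1) ^ i *
        (((i : ℤ) + 2) ^ A * ((i : ℤ) + 1) ^ B * (i : ℤ) ^ k)) := by
  set S := ∑ i ∈ range (3 ^ (m + 2)), (-1) ^ i *
        (((i : ℤ) + 2) ^ A * ((i : ℤ) + 1) ^ B * (i : ℤ) ^ k) with hS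
  have hd : (3 : ℤ) ^ (k + 1) ∣ S - 3 ^ k * (2 ^ A *
      ∑ l ∈ range (3 ^ (m + 1)), (-1) ^ l * (l : ℤ) ^ k) := by
    rw [hS, pow_succ' 3 (m + 1),
      three_blocks (fun i => ((i : ℤ) + 2) ^ A * ((i : ℤ) + 1) ^ B * (i : ℤ) ^ k),
      mul_sum, mul_sum, ← sum_sub_distrib]
    refine dvd_sum fun l _ => ?_
    have b1 : (3 : ℤ) ^ (k + 1) ∣ (((3 * l + 1 : ℕ) : ℤ) + 2) ^ A
        * (((3 * l + 1 : ℕ) : ℤ) + 1) ^ B * ((3 * l + 1 : ℕ) : ℤ) ^ k := by
      refine Dvd.dvd.mul_right (Dvd.dvd.mul_right ?_ _) _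
      refine dvd_trans (pow_dvd_pow _ hA) (pow_dvd_pow_of_dvd ?_ A)
      exact ⟨(l : ℤ) + 1, by push_cast; ring⟩
    have b2 : (3 : ℤ) ^ (k + 1) ∣ (((3 * l + 2 : ℕ) : ℤ) + 2) ^ A
        * (((3 * l + 2 : ℕ) : ℤ) + 1) ^ B * ((3 * l + 2 : ℕ) : ℤ) ^ k := by
      refine Dvd.dvd.mul_right (Dvd.dvd.mul_left ?_ _) _
      refine dvd_trans (pow_dvd_pow _ hB) (pow_dvd_pow_of_dvd ?_ B)
      exact ⟨(l : ℤ) + 1, by push_cast; ring⟩
    have b3 : (3 : ℤ) ^ (k + 1) ∣ (((3 * l : ℕ) : ℤ) + 2) ^ A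
        * (((3 * l : ℕ) : ℤ) + 1) ^ B * ((3 * l : ℕ) : ℤ) ^ k - 3 ^ k * (2 ^ A * (l : ℤ) ^ k) := by
      have e : (((3 * l : ℕ) : ℤ) + 2) ^ A * (((3 * l : ℕ) : ℤ) + 1) ^ B * ((3 * l : ℕ) : ℤ) ^ k
          - 3 ^ k * (2 ^ A * (l : ℤ) ^ k)
          = 3 ^ k * (l : ℤ) ^ k * ((3 * (l : ℤ) + 2) ^ A * (3 * (l : ℤ) + 1) ^ B - 2 ^ A * 1 ^ B) := by
        push_cast; rw [mul_pow]; ring
      rw [e, pow_succ]
      have c1 : (3 : ℤ) ∣ (3 * (l : ℤ) + 2) ^ A * (3 * (l : ℤ) + 1) ^ B - 2 ^ A * 1 ^ B := by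
        have d1 : (3 : ℤ) ∣ (3 * (l : ℤ) + 2) ^ A - 2 ^ A :=
          dvd_trans ⟨(l : ℤ), by ring⟩ (sub_dvd_pow_sub_pow _ _ A)
        have d2 : (3 : ℤ) ∣ (3 * (l : ℤ) + 1) ^ B - 1 ^ B :=
          dvd_trans ⟨(l : ℤ), by ring⟩ (sub_dvd_pow_sub_pow _ _ B)
        have e2 : (3 * (l : ℤ) + 2) ^ A * (3 * (l : ℤ) + 1) ^ B - 2 ^ A * 1 ^ B
            = ((3 * (l : ℤ) + 2) ^ A - 2 ^ A) * (3 * (l : ℤ) + 1) ^ B
              + 2 ^ A * ((3 * (l : ℤ) + 1) ^ B - 1 ^ B) := by ring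
        rw [e2]
        exact dvd_add (Dvd.dvd.mul_right d1 _) (Dvd.dvd.mul_left d2 _)
      obtain ⟨w, hw⟩ := c1
      rw [hw]
      exact ⟨(l : ℤ) ^ k * w, by ring⟩
    have := Dvd.dvd.mul_left (dvd_add (dvd_sub b3 b1) b2) ((-1 : ℤ) ^ l)
    convert this using 1
    ring
  constructor
  · have h1 : (3 : ℤ) ^ k ∣ 3 ^ (k + 1) := pow_dvd_pow _ (Nat.le_succ k)
    have h2 := dvd_trans h1 hd
    have h3 : (3 : ℤ) ^ k ∣ 3 ^ k * (2 ^ A *
      ∑ l ∈ range (3 ^ (m + 1)), (-1) ^ l * (l : ℤ) ^ k) := dvd_mul_right _ _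
    have := dvd_add h2 h3
    simpa using this
  · intro h
    have h2 := dvd_sub h hd
    rw [sub_sub_cancel, pow_succ] at h2
    have h3 := (mul_dvd_mul_iff_left (pow_ne_zero k (by norm_num : (3 : ℤ) ≠ 0))).1 h2
    have h4 : IsCoprime (3 : ℤ) (2 ^ A) := by
      apply IsCoprime.pow_right
      exact ⟨1, -1, by norm_num⟩
    exact small_sum k m hk (h4.dvd_of_dvd_mul_left h3)

/-- the heights `h j = j + c j` -/
def ht (n L : ℕ) (j : ℕ) : ℕ := if j < n - 2 * L then j + 2 else if j < n - L then j + 1 else j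

/-- heights after removal of the index `i` -/
def del (h : ℕ → ℕ) (i : ℕ) (j : ℕ) : ℕ := if j < i then h j else h (j + 1)

/-- the minors -/
def pp (N L : ℕ) (i : ℕ) : ℤ := (stair N N (del (ht (N + 1) L) i)).permanent

lemma pp_order (N L k : ℕ) (hL : 2 ≤ L) (hN : 4 * L ≤ N + 1) (hk : Odd k) (hkL : k < L) :
    (3 : ℤ) ^ k ∣ pp N L (N + 1 - L + k) ∧ ¬ (3 : ℤ) ^ (k + 1) ∣ pp N L (N + 1 - L + k) := by
  set i0 := N + 1 - L + k with hi0
  set h := del (ht (N + 1) L) i0 with hh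
  obtain ⟨m, hm⟩ : ∃ m, L = m + 2 := ⟨L - 2, by omega⟩
  have hmono : ∀ i j, i ≤ j → j < N → h i ≤ h j := by
    intro i j hij hj
    simp only [hh, del, ht]
    split_ifs <;> omega
  have hbd : ∀ j, j < N → h j ≤ N := by
    intro j hj
    simp only [hh, del, ht]
    split_ifs <;> omega
  have key := stair_perm L N N le_rfl h hmono hbd
  obtain ⟨A, hA⟩ : ∃ A, A = N + 1 - 2 * L := ⟨_, rfl⟩
  obtain ⟨D, hD⟩ : ∃ D, D = L - 1 - k := ⟨_, rfl⟩
  have hNs : N = A + L + k + D := by omega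
  have hpol : ∀ x : ZMod (3 ^ L), pol N N h x = (x + 2) ^ A * (x + 1) ^ (L + D) * x ^ k := by
    intro x
    unfold pol
    rw [Nat.sub_self]
    simp only [gg, range_zero, prod_empty, one_mul, Nat.cast_zero, sub_zero]
    have hr : range N = range (A + L + k + D) := by rw [← hNs]
    rw [hr, prod_range_add, prod_range_add, prod_range_add]
    have p1 : ∏ j ∈ range A, (x + (h j : ZMod (3 ^ L)) - (j : ZMod (3 ^ L))) = (x + 2) ^ A := by
      refine (prod_eq_pow_card (fun j hj => ?_)).trans (by rw [card_range])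
      have hj' := mem_range.1 hj
      have : h j = j + 2 := by
        simp only [hh, del, ht]; split_ifs <;> omega
      rw [this]; push_cast; ring
    have p2 : ∏ j ∈ range L, (x + (h (A + j) : ZMod (3 ^ L)) - ((A + j : ℕ) : ZMod (3 ^ L)))
        = (x + 1) ^ L := by
      refine (prod_eq_pow_card (fun j hj => ?_)).trans (by rw [card_range])
      have hj' := mem_range.1 hj
      have : h (A + j) = A + j + 1 := by
        simp only [hh, del, ht]; split_ifs <;> omega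
      rw [this]; push_cast; ring
    have p3 : ∏ j ∈ range k, (x + (h (A + L + j) : ZMod (3 ^ L)) - ((A + L + j : ℕ) : ZMod (3 ^ L)))
        = x ^ k := by
      refine (prod_eq_pow_card (fun j hj => ?_)).trans (by rw [card_range])
      have hj' := mem_range.1 hj
      have : h (A + L + j) = A + L + j := by
        simp only [hh, del, ht]; split_ifs <;> omega
      rw [this]; push_cast; ring
    have p4 : ∏ j ∈ range D, (x + (h (A + L + k + j) : ZMod (3 ^ L))
          - ((A + L + k + j : ℕ) : ZMod (3 ^ L))) = (x + 1) ^ D := by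
      refine (prod_eq_pow_card (fun j hj => ?_)).trans (by rw [card_range])
      have hj' := mem_range.1 hj
      have : h (A + L + k + j) = A + L + k + j + 1 := by
        simp only [hh, del, ht]; split_ifs <;> omega
      rw [this]; push_cast; ring
    rw [p1, p2, p3, p4, pow_add]; ring
  obtain ⟨hb1, hb2⟩ := big_sum A (L + D) k m hk (by omega) (by omega)
  set S := ∑ i ∈ range (3 ^ (m + 2)), (-1) ^ i *
        (((i : ℤ) + 2) ^ A * ((i : ℤ) + 1) ^ (L + D) * (i : ℤ) ^ k) with hS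
  have hcast : alt L (pol N N h) = ((S : ℤ) : ZMod (3 ^ L)) := by
    have : alt L (pol N N h) = ∑ i ∈ range (3 ^ L), (-1) ^ i
        * (((i : ZMod (3 ^ L)) + 2) ^ A * ((i : ZMod (3 ^ L)) + 1) ^ (L + D)
          * (i : ZMod (3 ^ L)) ^ k) := by
      unfold alt
      exact sum_congr rfl fun i _ => by rw [hpol]
    rw [this, hS, ← hm]
    push_cast
    rfl
  have hcong : ((pp N L i0 : ℤ) : ZMod (3 ^ L)) = (((-2) ^ N * S : ℤ) : ZMod (3 ^ L)) := by
    have e : pp N L i0 = (stair N N h).permanent := rfl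
    rw [e, key, hcast]; push_cast; rfl
  have hdiv : (3 : ℤ) ^ L ∣ pp N L i0 - (-2) ^ N * S := by
    have := (ZMod.intCast_eq_intCast_iff_dvd_sub _ _ _).1 hcong
    have h3 : ((3 ^ L : ℕ) : ℤ) = (3 : ℤ) ^ L := by push_cast; rfl
    rw [h3] at this
    exact (dvd_sub_comm).1 this
  have hk1 : (3 : ℤ) ^ (k + 1) ∣ pp N L i0 - (-2) ^ N * S :=
    dvd_trans (pow_dvd_pow _ (by omega)) hdiv
  constructor
  · have h1 : (3 : ℤ) ^ k ∣ pp N L i0 - (-2) ^ N * S :=
      dvd_trans (pow_dvd_pow _ (Nat.le_succ k)) hk1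
    have := dvd_add h1 (Dvd.dvd.mul_left hb1 ((-2) ^ N))
    simpa using this
  · intro h1
    have h2 := dvd_sub h1 hk1
    rw [sub_sub_cancel] at h2
    have h4 : IsCoprime ((3 : ℤ) ^ (k + 1)) ((-2) ^ N) := by
      apply IsCoprime.pow
      exact ⟨1, 1, by norm_num⟩
    exact hb2 (h4.dvd_of_dvd_mul_left h2)

/-- sums of numbers of different orders are different -/
lemma subset_inj (q : ℕ → ℤ) (r : ℕ)
    (hq : ∀ s, s < r → (3 : ℤ) ^ (2 * s + 1) ∣ q s ∧ ¬ (3 : ℤ) ^ (2 * s + 2) ∣ q s)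
    (T T' : Finset ℕ) (hT : T ⊆ range r) (hT' : T' ⊆ range r)
    (he : ∑ s ∈ T, q s = ∑ s ∈ T', q s) : T = T' := by
  by_contra hne
  -- the smallest element of the symmetric difference
  have hex : ∃ s, (s ∈ T ∧ s ∉ T') ∨ (s ∈ T' ∧ s ∉ T) := by
    by_contra hcon
    push Not at hcon
    apply hne
    ext s
    constructor
    · intro h; by_contra h'; exact h' ((hcon s).1 h)
    · intro h; by_contra h'; exact h' ((hcon s).2 h)
  classical
  set s0 := Nat.find hex with hs0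
  have hspec := Nat.find_spec hex
  have hmin : ∀ s, s < s0 → (s ∈ T ↔ s ∈ T') := by
    intro s hs
    have := Nat.find_min hex hs
    push Not at this
    exact ⟨this.1, this.2⟩
  have main : ∀ U U' : Finset ℕ, U ⊆ range r → U' ⊆ range r → s0 ∈ U → s0 ∉ U' →
      (∀ s, s < s0 → (s ∈ U ↔ s ∈ U')) → ∑ s ∈ U, q s = ∑ s ∈ U', q s → False := by
    intro U U' hU hU' h1 h2 h3 h4
    have hr : s0 < r := mem_range.1 (hU h1)
    have e1 : ∑ s ∈ U, q s = ∑ s ∈ U.filter (· < s0), q s + (q s0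
        + ∑ s ∈ U.filter (s0 < ·), q s) := by
      rw [← sum_filter_add_sum_filter_not U (· < s0)]
      congr 1
      have : U.filter (fun x => ¬ x < s0) = insert s0 (U.filter (s0 < ·)) := by
        ext x
        simp only [mem_filter, mem_insert]
        constructor
        · rintro ⟨a, b⟩
          rcases lt_or_eq_of_le (not_lt.1 b) with c | c
          · right; exact ⟨a, c⟩
          · left; exact c.symm
        · rintro (rfl | ⟨a, b⟩)
          · exact ⟨h1, lt_irrefl _⟩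
          · exact ⟨a, not_lt.2 b.le⟩
      rw [this, sum_insert (by simp)]
    have e2 : ∑ s ∈ U', q s = ∑ s ∈ U'.filter (· < s0), q s
        + ∑ s ∈ U'.filter (s0 < ·), q s := by
      rw [← sum_filter_add_sum_filter_not U' (· < s0)]
      congr 1
      refine sum_congr ?_ fun _ _ => rfl
      ext x
      simp only [mem_filter]
      constructor
      · rintro ⟨a, b⟩
        refine ⟨a, lt_of_le_of_ne (not_lt.1 b) ?_⟩
        rintro rfl; exact h2 a
      · rintro ⟨a, b⟩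
        exact ⟨a, not_lt.2 b.le⟩
    have e3 : U.filter (· < s0) = U'.filter (· < s0) := by
      ext x
      simp only [mem_filter]
      constructor
      · rintro ⟨a, b⟩; exact ⟨(h3 x b).1 a, b⟩
      · rintro ⟨a, b⟩; exact ⟨(h3 x b).2 a, b⟩
    have hdv : ∀ W : Finset ℕ, W ⊆ range r →
        (3 : ℤ) ^ (2 * s0 + 2) ∣ ∑ s ∈ W.filter (s0 < ·), q s := by
      intro W hW
      refine dvd_sum fun s hs => ?_
      obtain ⟨a, b⟩ := mem_filter.1 hs
      exact dvd_trans (pow_dvd_pow _ (by omega)) (hq s (mem_range.1 (hW a))).1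
    have hfin : q s0 = ∑ s ∈ U'.filter (s0 < ·), q s - ∑ s ∈ U.filter (s0 < ·), q s := by
      rw [e1, e2, e3] at h4
      linarith
    exact (hq s0 hr).2 (hfin ▸ dvd_sub (hdv U' hU') (hdv U hU))
  rcases hspec with ⟨a, b⟩ | ⟨a, b⟩
  · exact main T T' hT hT' a b hmin he
  · exact main T' T hT' hT a b (fun s hs => (hmin s hs).symm) he.symm

/-- the matrix with the sign vector `ε` in the first column -/
def mat (N L : ℕ) (ε : ℕ → ℤ) : Matrix (Fin (N + 1)) (Fin (N + 1)) ℤ :=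
  fun i j => if (j : ℕ) = 0 then ε i else if (j : ℕ) - 1 < ht (N + 1) L i then -1 else 1

lemma mat_per (N L : ℕ) (ε : ℕ → ℤ) :
    (mat N L ε).permanent = ∑ i ∈ range (N + 1), ε i * pp N L i := by
  rw [perm_succ_col, Finset.sum_range]
  refine sum_congr rfl fun i _ => ?_
  congr 1
  have : (mat N L ε).submatrix i.succAbove Fin.succ
      = (stair N N (del (ht (N + 1) L) i)).transpose := by
    ext a b
    have h1 : ((i.succAbove a : Fin (N + 1)) : ℕ) = if (a : ℕ) < i then (a : ℕ) else a + 1 := by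
      rcases lt_or_ge a.castSucc i with hlt | hge
      · have h5 : (a : ℕ) < i := by simpa [Fin.lt_def] using hlt
        rw [Fin.succAbove_of_castSucc_lt _ _ hlt, if_pos h5]
        rfl
      · have h5 : ¬ (a : ℕ) < i := by
          have : (i : ℕ) ≤ a := by simpa [Fin.le_def] using hge
          omega
        rw [Fin.succAbove_of_le_castSucc _ _ hge, if_neg h5]
        rfl
    simp only [Matrix.submatrix_apply, Matrix.transpose_apply, mat, stair, del, Fin.val_succ, h1]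
    have h2 := a.isLt
    by_cases h3 : (a : ℕ) < i <;> simp [h3, h2]
  rw [this, Matrix.permanent_transpose]
  rfl

/-- signs -/
def sg (N L : ℕ) (T : Finset ℕ) (i : ℕ) : ℤ :=
  1 - 2 * ∑ s ∈ T, if i = N + 1 - L + (2 * s + 1) then 1 else 0

lemma sg_pm (N L : ℕ) (T : Finset ℕ) (i : ℕ) : sg N L T i = 1 ∨ sg N L T i = -1 := by
  unfold sg
  by_cases h : ∃ s ∈ T, i = N + 1 - L + (2 * s + 1)
  · obtain ⟨s, hs, hi⟩ := h
    right
    rw [sum_eq_single s]
    · rw [if_pos hi]; norm_num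
    · intro t _ ht
      rw [if_neg]; omega
    · intro h; exact absurd hs h
  · left
    push Not at h
    rw [sum_eq_zero]
    · norm_num
    · intro s hs
      rw [if_neg (h s hs)]

lemma mat_per_sg (N L r : ℕ) (hL : L ≤ N + 1) (hr : 2 * r ≤ L) (T : Finset ℕ)
    (hT : T ⊆ range r) :
    (mat N L (sg N L T)).permanent
      = ∑ i ∈ range (N + 1), pp N L i - 2 * ∑ s ∈ T, pp N L (N + 1 - L + (2 * s + 1)) := by
  rw [mat_per]
  have h1 : ∀ i, sg N L T i * pp N L i = pp N L i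
      - 2 * ∑ s ∈ T, (if i = N + 1 - L + (2 * s + 1) then pp N L i else 0) := by
    intro i
    have : ∑ s ∈ T, (if i = N + 1 - L + (2 * s + 1) then pp N L i else 0)
        = (∑ s ∈ T, if i = N + 1 - L + (2 * s + 1) then (1 : ℤ) else 0) * pp N L i := by
      rw [sum_mul]
      refine sum_congr rfl fun s _ => ?_
      split_ifs <;> simp
    rw [this]
    unfold sg; ring
  rw [sum_congr rfl fun i _ => h1 i, sum_sub_distrib, ← mul_sum, sum_comm]
  congr 2
  refine sum_congr rfl fun s hs => ?_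
  have hs' := mem_range.1 (hT hs)
  rw [sum_ite_eq' (range (N + 1)) (N + 1 - L + (2 * s + 1)) (fun i => pp N L i),
    if_pos (mem_range.2 (by omega))]

/-- **exponentially many permanents** -/
theorem main (n : ℕ) (hn : 16 ≤ n) :
    2 ^ ((n / 4) / 2) ≤ Set.ncard {p : ℤ | ∃ A : Matrix (Fin n) (Fin n) ℤ,
        (∀ i j, A i j = 1 ∨ A i j = -1) ∧ A.permanent = p} := by
  obtain ⟨N, rfl⟩ : ∃ N, n = N + 1 := ⟨n - 1, by omega⟩
  set L := (N + 1) / 4 with hLd
  set r := L / 2 with hrd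
  have hL : 2 ≤ L := by omega
  have hN : 4 * L ≤ N + 1 := by omega
  set V := {p : ℤ | ∃ A : Matrix (Fin (N + 1)) (Fin (N + 1)) ℤ,
        (∀ i j, A i j = 1 ∨ A i j = -1) ∧ A.permanent = p} with hV
  have hVfin : V.Finite := by
    refine Set.Finite.subset (Set.finite_range
      (fun f : Fin (N + 1) → Fin (N + 1) → Bool =>
        (Matrix.of fun i j => if f i j then (1 : ℤ) else -1 :
          Matrix (Fin (N + 1)) (Fin (N + 1)) ℤ).permanent)) ?_
    rintro p ⟨A, hA, rfl⟩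
    refine ⟨fun i j => decide (A i j = 1), ?_⟩
    show Matrix.permanent _ = _
    congr 1
    ext i j
    rcases hA i j with h | h <;> simp [h]
  set F : Finset ℕ → ℤ := fun T => (mat N L (sg N L T)).permanent with hF
  have hinj : Set.InjOn F ((range r).powerset : Finset (Finset ℕ)) := by
    intro T hT T' hT' he
    have hT1 : T ⊆ range r := mem_powerset.1 (mem_coe.1 hT)
    have hT2 : T' ⊆ range r := mem_powerset.1 (mem_coe.1 hT')
    have he' : F T = F T' := he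
    simp only [hF] at he'
    rw [mat_per_sg N L r (by omega) (by omega) T hT1,
      mat_per_sg N L r (by omega) (by omega) T' hT2] at he'
    refine subset_inj (fun s => pp N L (N + 1 - L + (2 * s + 1))) r ?_ T T' hT1 hT2 (by linarith)
    intro s hs
    exact pp_order N L (2 * s + 1) hL hN ⟨s, rfl⟩ (by omega)
  have hcard : ((range r).powerset.image F).card = 2 ^ r := by
    rw [card_image_of_injOn hinj, card_powerset, card_range]
  have hsub : (((range r).powerset.image F : Finset ℤ) : Set ℤ) ⊆ V := by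
    intro p hp
    simp only [coe_image, Set.mem_image] at hp
    obtain ⟨T, _, rfl⟩ := hp
    refine ⟨mat N L (sg N L T), ?_, rfl⟩
    intro i j
    unfold mat
    split_ifs
    · exact sg_pm N L T i
    · right; rfl
    · left; rfl
  rw [← hcard, ← Set.ncard_coe_finset]
  exact Set.ncard_le_ncard hsub hVfin

end Pool.Agent.V11261.PM
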